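import Pool.Agent.helper88.PF.Spec

/-!
# Row pf:BMG: merging
-/

namespace PF

/-- The common step behind the prefix. -/
theorem BMG_core (hACL : ACL_stmt) (Γ₁ β₀ α β : Po) (M : ℕ) (Θ : Γ₁ → β₀ → α → β → Prop)
    (γ : ℕ → Γ₁) (u : ℕ → α.pow M) (hu : CE u)
    (h : ∃ t : ℕ → β₀, CE t ∧ ∀ x : ℕ → α, CE x → ∃ y : ℕ → β, CE y ∧
      Wk (fun p => (γ p, t p, x p, y p)) (fun s => Θ s.1 s.2.1 s.2.2.1 s.2.2.2)) :
    ∃ t : ℕ → β₀.prod (β.pow M), CE t ∧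
      ∀ R : ℕ → Prop, ComputablePred R → {k | R k}.Infinite → ∀ (a : Γ₁) (b : α.pow M)
        (c : β₀.prod (β.pow M)), (∀ p, R p → γ p = a ∧ u p = b ∧ t p = c) →
        ∀ g : Fin M, Θ a c.1 (b g) (c.2 g) := by
  obtain ⟨t, ht, h⟩ := h
  have h7 := hACL.2.2.2.2.2.2
  have hug : ∀ g : Fin M, CE (fun p => u p g) := (h7 α.C M u).1 hu
  choose y hy hW using fun g : Fin M => h (fun p => u p g) (hug g)
  have hyc : CE (fun p => (fun g => y g p : Fin M → β.C)) :=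
    (h7 β.C M (fun p => (fun g => y g p : Fin M → β.C))).2 (fun g => hy g)
  refine ⟨fun p => (t p, fun g => y g p), hACL.2.2.1 β₀.C (Fin M → β.C) t _ ht hyc, ?_⟩
  intro R hR hinf a b c hc g
  refine hW g R hR hinf (a, c.1, b g, c.2 g) ?_
  intro p hp
  obtain ⟨h1, h2, h3⟩ := hc p hp
  have h4 : t p = c.1 := by rw [← h3]
  have h5 : y g p = c.2 g := by rw [← h3]
  have h6 : u p g = b g := by rw [h2]
  show (γ p, t p, u p g, y g p) = (a, c.1, b g, c.2 g)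
  rw [h1, h4, h5, h6]

theorem BMG (hACL : ACL_stmt) (hBTM : BTM_stmt) : BMG_stmt := by
  intro Γ π β₀ α β M Θ h
  cases π with
  | one α₁ K =>
    intro s hs hK
    have h1 : CE (fun p => (s p).1) :=
      hACL.2.1 (Γ.C × (Fin M → α.C)) Γ.C Prod.fst s (fun _ _ h => h.1) hs
    have h2 : CE (fun p => (s p).2) :=
      hACL.2.1 (Γ.C × (Fin M → α.C)) (Fin M → α.C) Prod.snd s (fun _ _ h => h.2) hs
    obtain ⟨t, ht, hW⟩ := BMG_core hACL Γ β₀ α β M Θ (fun p => (s p).1) (fun p => (s p).2) h2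
      (h (fun p => (s p).1) h1 hK)
    refine ⟨t, ht, ?_⟩
    intro R hR hinf σ hσ g
    refine hW R hR hinf σ.1.1 σ.1.2 σ.2 ?_ g
    intro p hp
    have h3 := hσ p hp
    have h4 : s p = σ.1 := congrArg Prod.fst h3
    have h5 : t p = σ.2 := congrArg Prod.snd h3
    exact ⟨congrArg Prod.fst h4, congrArg Prod.snd h4, h5⟩
  | snoc π' β₁ α₁ =>
    refine hBTM _ π' _ _ ?_ h
    rintro γ hγ ⟨y, hy, h⟩
    refine ⟨y, hy, ?_⟩
    intro s hs
    have h1 : CE (fun p => (s p).1) :=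
      hACL.2.1 (α₁.C × (Fin M → α.C)) α₁.C Prod.fst s (fun _ _ h => h.1) hs
    have h2 : CE (fun p => (s p).2) :=
      hACL.2.1 (α₁.C × (Fin M → α.C)) (Fin M → α.C) Prod.snd s (fun _ _ h => h.2) hs
    obtain ⟨t, ht, hW⟩ := BMG_core hACL _ β₀ α β M Θ (fun p => (γ p, y p, (s p).1))
      (fun p => (s p).2) h2 (h (fun p => (s p).1) h1)
    refine ⟨t, ht, ?_⟩
    intro R hR hinf σ hσ g
    refine hW R hR hinf (σ.1.1, σ.1.2.1, σ.1.2.2.1) σ.1.2.2.2 σ.2 ?_ g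
    intro p hp
    have h3 := hσ p hp
    have h4 : (γ p, y p, s p) = σ.1 := congrArg Prod.fst h3
    have h5 : t p = σ.2 := congrArg Prod.snd h3
    have h6 : γ p = σ.1.1 := congrArg Prod.fst h4
    have h7 : y p = σ.1.2.1 := congrArg (fun z => z.2.1) h4
    have h8 : s p = σ.1.2.2 := congrArg (fun z => z.2.2) h4
    refine ⟨?_, congrArg Prod.snd h8, h5⟩
    show (γ p, y p, (s p).1) = (σ.1.1, σ.1.2.1, σ.1.2.2.1)
    rw [h6, h7, h8]

end PF
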